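import Pool.Agent.H57.DK.Example

open Pool.Agent.MP_7f766c_an

namespace Pool.Agent.Results.MP_7f766c_an.NotEquivalent

/-- Q1 has a negative answer, already for `n = 4` maps on a compact metrizable space: two
piecewise conjugate classical multivariable systems whose C*-correspondences are not unitarily
equivalent. -/
theorem result : ∃ (X : Type) (_ : TopologicalSpace X) (_ : CompactSpace X)
    (_ : TopologicalSpace.MetrizableSpace X) (σ τ : Fin 4 → CocompactMap X X),
    PiecewiseConjugate σ τ ∧ ¬ UnitarilyEquivalent σ τ :=
  Pool.Agent.H57.DK.main

end Pool.Agent.Results.MP_7f766c_an.NotEquivalent
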